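import Pool.Agent.R620.NC.Graph

/-!
# The `n`-ary contact is not first-order definable in contact algebras

The graph `G_M` has three copies of the set of the pairs `a < b < M`, and `(a, b)` in one copy is
joined to `(b, d)` in each later copy; it has no triangle with vertices in the three copies. By the
pigeonhole principle there are arbitrarily large `M` for which the power sets of the `G_M`, with the
three copies as constants, satisfy the same formulas of a given quantifier depth, and then so do
the power set `B₁` of the disjoint sum of these `G_M` and the power set `B₂` of the disjoint sum of
infinitely many copies of one of them. In `B₂` there is no clan containing the three copies, since
one graph is finite. In `B₁` there is one, given by iterated limits along an ultrafilter. Both are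
isomorphic to the algebras of the regular closed sets of their spaces of clans.
-/

set_option autoImplicit false

namespace Pool.Agent.Results.MP_2fbd40_lc.NotDefinable

open Pool.Agent.R620.NC

/-- For `n ≥ 3`, no first-order formula in the language of contact algebras defines the `n`-ary
contact in the algebras of the regular closed sets of all topological spaces, and not even in those
of the compact `T₀` spaces in which all clans are given by points. -/
theorem result (n : ℕ) (hn : 3 ≤ n) (φ : Fm) :
    ∃ (X : Type) (_ : TopologicalSpace X), CompactSpace X ∧ T0Space X ∧ ClansArePoints X ∧
      ¬ Defines X n φ :=
  main n hn φ

end Pool.Agent.Results.MP_2fbd40_lc.NotDefinable
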